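import Pool.Agent.H59Z.NA.Final
import Pool.Agent.H59Z.NA.TappZ
import Pool.Agent.H59Z.NA.TappHM

set_option autoImplicit false

namespace Pool.Agent.Results.MP_adec7c_al.AExists

/-- There is a Hausdorff locally compact group, neither discrete nor compact, with non-trivial
centre, in which every subgroup (with the subspace topology) is minimal: every Hausdorff group
topology on the subgroup that is coarser than the subspace topology equals it. -/
theorem result :
    ∃ (G : Type) (_ : Group G) (tG : TopologicalSpace G),
      IsTopologicalGroup G ∧ T2Space G ∧ LocallyCompactSpace G ∧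
      ¬ DiscreteTopology G ∧ ¬ CompactSpace G ∧
      Subgroup.center G ≠ ⊥ ∧
      ∀ H : Subgroup G, ∀ τ : TopologicalSpace H,
        @IsTopologicalGroup H τ _ → @T2Space H τ →
        TopologicalSpace.induced (Subtype.val : H → G) tG ≤ τ →
        τ = TopologicalSpace.induced (Subtype.val : H → G) tG := by
  obtain ⟨G, hG, tG, h1, h2, h3, h4, h5, h6, -, h8⟩ :=
    Pool.Agent.H59Z.NA.thm_appZ Pool.Agent.H59Z.NA.thm_appHM Pool.Agent.H59Z.NA.adian_three
  exact ⟨G, hG, tG, h1, h2, h3, h4, h5, h6, h8⟩

end Pool.Agent.Results.MP_adec7c_al.AExists
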